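import Pool.Agent.Run7.h606.MT.Cur
import Pool.Agent.Run7.h457.MT.Iface

/-!
# Project MT457, piece P4: the Mumford-Tate group is contained in the monodromy group (helper606)
-/

set_option autoImplicit false
set_option linter.unusedSectionVars false

namespace Pool.Agent.Run7.h606.MT

open Matrix Filter Topology MvPolynomial
open Run7.h457.MT

noncomputable section

variable {κ : Type} [Fintype κ] [DecidableEq κ]

section limits

variable {ℓ : ℕ} [Fact ℓ.Prime]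

theorem tendsto_one {t : ℕ → ℚ_[ℓ]} (ht : Tendsto t atTop (𝓝 0)) (ht0 : ∀ n, t n ≠ 0)
    {B : ℕ → Matrix κ κ ℚ_[ℓ]} {L : Matrix κ κ ℚ_[ℓ]}
    (hB : Tendsto (fun n => (t n)⁻¹ • (B n - 1)) atTop (𝓝 L)) : Tendsto B atTop (𝓝 1) := by
  have h1 : Tendsto (fun n => t n • ((t n)⁻¹ • (B n - 1)) + 1) atTop (𝓝 ((0 : ℚ_[ℓ]) • L + 1)) :=
    (ht.smul hB).add tendsto_const_nhds
  rw [zero_smul, zero_add] at h1
  refine h1.congr fun n => ?_
  rw [smul_smul, mul_inv_cancel₀ (ht0 n), one_smul, sub_add_cancel]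

theorem tendsto_pow {t : ℕ → ℚ_[ℓ]} (ht : Tendsto t atTop (𝓝 0)) (ht0 : ∀ n, t n ≠ 0)
    {B : ℕ → Matrix κ κ ℚ_[ℓ]} {L : Matrix κ κ ℚ_[ℓ]}
    (hB : Tendsto (fun n => (t n)⁻¹ • (B n - 1)) atTop (𝓝 L)) (M : ℕ) :
    Tendsto (fun n => (t n)⁻¹ • (B n ^ M - 1)) atTop (𝓝 ((M : ℚ_[ℓ]) • L)) := by
  have h1 := tendsto_one ht ht0 hB
  induction M with
  | zero =>
    simp only [pow_zero, sub_self, smul_zero, Nat.cast_zero, zero_smul]
    exact tendsto_const_nhds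
  | succ M ih =>
    have h2 : Tendsto (fun n => B n ^ M * ((t n)⁻¹ • (B n - 1)) + (t n)⁻¹ • (B n ^ M - 1)) atTop
        (𝓝 (1 ^ M * L + (M : ℚ_[ℓ]) • L)) := ((h1.pow M).mul hB).add ih
    have h3 : (1 : Matrix κ κ ℚ_[ℓ]) ^ M * L + (M : ℚ_[ℓ]) • L = ((M + 1 : ℕ) : ℚ_[ℓ]) • L := by
      rw [one_pow, one_mul, Nat.cast_add, Nat.cast_one, add_smul, one_smul, add_comm]
    rw [h3] at h2
    refine h2.congr fun n => ?_
    rw [Matrix.mul_smul, ← smul_add, mul_sub, mul_one, ← pow_succ, sub_add_sub_cancel]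

theorem tendsto_ev {t : ℕ → ℚ_[ℓ]} (ht : Tendsto t atTop (𝓝 0)) (ht0 : ∀ n, t n ≠ 0)
    {B : ℕ → Matrix κ κ ℚ_[ℓ]} {L : Matrix κ κ ℚ_[ℓ]}
    (hB : Tendsto (fun n => (t n)⁻¹ • (B n - 1)) atTop (𝓝 L)) (m : Matrix κ κ ℚ_[ℓ])
    (f : Po κ ℚ_[ℓ]) :
    Tendsto (fun n => (t n)⁻¹ * (ev (m * B n) f - ev m f)) atTop (𝓝 (ev m (dx L f))) := by
  have h1 := tendsto_one ht ht0 hB
  have h2 : Tendsto (fun n => m * B n) atTop (𝓝 (m * 1)) := tendsto_const_nhds.mul h1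
  rw [mul_one] at h2
  have h3 : Tendsto (fun n => m * ((t n)⁻¹ • (B n - 1))) atTop (𝓝 (m * L)) :=
    tendsto_const_nhds.mul hB
  have happ : ∀ {X : ℕ → Matrix κ κ ℚ_[ℓ]} {Y : Matrix κ κ ℚ_[ℓ]}, Tendsto X atTop (𝓝 Y) →
      ∀ i j, Tendsto (fun n => X n i j) atTop (𝓝 (Y i j)) := fun hX i j =>
    ((continuous_apply_apply i j).tendsto _).comp hX
  induction f using MvPolynomial.induction_on with
  | C c =>
    simp only [ev_C, sub_self, mul_zero, dx_C, map_zero]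
    exact tendsto_const_nhds
  | add p q hp hq =>
    have h4 := hp.add hq
    have h5 : ev m (dx L (p + q)) = ev m (dx L p) + ev m (dx L q) := by
      rw [map_add (dx L), map_add (ev m)]
    rw [h5]
    refine h4.congr fun n => ?_
    rw [map_add, map_add]; ring
  | mul_X p q hp =>
    have h4 := (hp.mul (happ h2 q.1 q.2)).add
      ((tendsto_const_nhds (x := ev m p)).mul (happ h3 q.1 q.2))
    have h5 : ev m (dx L p) * m q.1 q.2 + ev m p * (m * L) q.1 q.2 =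
        ev m (dx L (p * X q)) := by
      rw [Derivation.leibniz, map_add, smul_eq_mul, smul_eq_mul, map_mul, map_mul, ev_dx_X, ev_X]
      ring
    rw [h5] at h4
    refine h4.congr fun n => ?_
    have h6 : (m * (t n)⁻¹ • (B n - 1)) q.1 q.2 = (t n)⁻¹ * ((m * B n) q.1 q.2 - m q.1 q.2) := by
      have h7 : m * (t n)⁻¹ • (B n - 1) = (t n)⁻¹ • (m * B n - m) := by
        rw [Matrix.mul_smul, Matrix.mul_sub, Matrix.mul_one]
      rw [h7]
      rfl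
    rw [map_mul, map_mul, ev_X, ev_X, h6]
    ring

end limits

section mono

variable {ℓ : ℕ} [Fact ℓ.Prime] {Γ : Type} [Group Γ] {ρ : Γ →* Matrix κ κ ℚ_[ℓ]}
  {Δ : Subgroup Γ}

/-- The polynomials which vanish on `ρ(Δ)` are stable under the derivations of the Lie algebra. -/
theorem vanish_dx (hΔ : Δ.FiniteIndex) {f : Po κ ℚ_[ℓ]} (hf : ∀ s ∈ Δ, ev (ρ s) f = 0)
    {x : Matrix κ κ ℚ_[ℓ]} (hx : x ∈ galLie ρ) : ∀ s ∈ Δ, ev (ρ s) (dx x f) = 0 := by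
  unfold galLie at hx
  induction hx using Submodule.span_induction with
  | mem L h =>
    obtain ⟨σ, hσ⟩ := h
    intro s hs
    obtain ⟨M, hM0, -, hM⟩ := Subgroup.exists_pow_mem_of_index_ne_zero hΔ.index_ne_zero σ
    have hℓ0 : (ℓ : ℚ_[ℓ]) ≠ 0 := Nat.cast_ne_zero.2 (Fact.out : ℓ.Prime).ne_zero
    have ht0 : ∀ n : ℕ, (ℓ : ℚ_[ℓ]) ^ n ≠ 0 := fun n => pow_ne_zero n hℓ0
    have ht : Tendsto (fun n : ℕ => (ℓ : ℚ_[ℓ]) ^ n) atTop (𝓝 0) := by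
      refine tendsto_pow_atTop_nhds_zero_of_norm_lt_one ?_
      exact Padic.norm_p_lt_one
    have h1 := tendsto_ev ht ht0 (tendsto_pow ht ht0 hσ M) (ρ s) f
    have h2 : ∀ n : ℕ, ((ℓ : ℚ_[ℓ]) ^ n)⁻¹ * (ev (ρ s * (ρ σ ^ ℓ ^ n) ^ M) f - ev (ρ s) f) = 0 := by
      intro n
      have h3 : ρ s * (ρ σ ^ ℓ ^ n) ^ M = ρ (s * (σ ^ M) ^ ℓ ^ n) := by
        rw [map_mul, map_pow, map_pow, ← pow_mul, ← pow_mul, mul_comm M]
      rw [h3, hf _ (Δ.mul_mem hs (Δ.pow_mem hM _)), hf s hs, sub_zero, mul_zero]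
    simp only [h2] at h1
    have h4 : ev (ρ s) (dx ((M : ℚ_[ℓ]) • L) f) = 0 :=
      tendsto_nhds_unique h1 tendsto_const_nhds
    rw [dx_smul, Derivation.smul_apply, map_smul, smul_eq_mul] at h4
    exact (mul_eq_zero.1 h4).resolve_left (Nat.cast_ne_zero.2 hM0.ne')
  | zero => intro s _; rw [dx_zero, Derivation.zero_apply, map_zero]
  | add x y _ _ hx hy =>
    intro s hs
    rw [dx_add, Derivation.add_apply, map_add, hx s hs, hy s hs, add_zero]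
  | smul c x _ hx =>
    intro s hs
    rw [dx_smul, Derivation.smul_apply, map_smul, hx s hs, smul_zero]

theorem vanish_II {A : Submodule ℚ (Matrix κ κ ℚ)}
    (hA : ∀ x ∈ A, x.map (algebraMap ℚ ℚ_[ℓ]) ∈ galLie ρ) (hΔ : Δ.FiniteIndex)
    {f : Po κ ℚ_[ℓ]} (hf : ∀ s ∈ Δ, ev (ρ s) f = 0) : f ∈ II ℚ_[ℓ] A := by
  intro l
  induction l generalizing f with
  | nil =>
    intro _
    have h := hf 1 Δ.one_mem
    rwa [map_one] at h
  | cons x l ih =>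
    intro hl
    rw [dl_cons]
    exact ih (vanish_dx hΔ hf (hA x (hl x (by simp)))) fun y hy => hl y (by simp [hy])

end mono

theorem mem_mtLie (hS : S_SPAN) {ι : Type} [Fintype ι] [DecidableEq ι] (D D' : Matrix ι ι ℂ) :
    D ∈ ratSpan ℂ (mtLie D D' : Set (Matrix ι ι ℚ)) ∧
      D' ∈ ratSpan ℂ (mtLie D D' : Set (Matrix ι ι ℚ)) := by
  constructor
  · rw [hS]
    intro φ
    unfold mtLie
    rw [Submodule.mem_sInf]
    intro S hS'
    exact (hS ℂ ι S D).1 hS'.2.1 φ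
  · rw [hS]
    intro φ
    unfold mtLie
    rw [Submodule.mem_sInf]
    intro S hS'
    exact (hS ℂ ι S D').1 hS'.2.2 φ

theorem gsup (hS : S_SPAN) : S_GSUP := by
  intro ℓ _ κ _ _ Γ _ ρ h C' _ _ a b e he he1 hh hlie g hg hMT f hf
  obtain ⟨Δ, hΔ, hfΔ⟩ := hf
  set A := mtLie (∑ c, (a c : ℂ) • e c) (∑ c, (b c : ℂ) • e c) with hA
  obtain ⟨hD, hD'⟩ := mem_mtLie hS (∑ c, (a c : ℂ) • e c) (∑ c, (b c : ℂ) • e c)
  have hmt : mumfordTate h ⊆ HH A := by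
    intro m hm
    refine hm (HH A) (isQGroup_HH A) fun z hz => ?_
    rw [hh z hz]
    exact torus_mem he he1 hD hD' hz
  have hQ : ∀ p ∈ II ℚ A, ev g (bc ℚ (AlgebraicClosure ℚ_[ℓ]) p) = 0 := by
    intro p hp
    rw [← value_eq]
    exact hMT p fun m hm => (hmt hm).2 p hp
  obtain ⟨n, c, p, hc, hfp⟩ := exists_bc (F := ℚ_[ℓ]) f
  have hp : ∀ i, ∀ s ∈ Δ, ev (ρ s) (p i) = 0 := by
    intro i s hs
    have h1 : ev ((ρ s).map (algebraMap ℚ_[ℓ] (AlgebraicClosure ℚ_[ℓ]))) f = 0 := hfΔ s hs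
    rw [hfp, map_sum] at h1
    have h2 : ∀ i, ev ((ρ s).map (algebraMap ℚ_[ℓ] (AlgebraicClosure ℚ_[ℓ])))
        (C (c i) * bc ℚ_[ℓ] (AlgebraicClosure ℚ_[ℓ]) (p i)) = ev (ρ s) (p i) • c i := by
      intro i
      rw [map_mul, ev_C, ev_bc, Algebra.smul_def, mul_comm]
    simp only [h2] at h1
    exact Fintype.linearIndependent_iff.1 hc _ h1 i
  show ev g f = 0
  rw [hfp, map_sum]
  refine Finset.sum_eq_zero fun i _ => ?_
  have h3 : bc ℚ_[ℓ] (AlgebraicClosure ℚ_[ℓ]) (p i) ∈ II (AlgebraicClosure ℚ_[ℓ]) A :=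
    bc_mem_II (vanish_II hlie hΔ (hp i))
  rw [map_mul, ev_II (F := ℚ) hQ h3, mul_zero]

end

end Pool.Agent.Run7.h606.MT
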