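import Pool.Agent.Run7.h606.MT.Hull

/-!
# Project MT457, the group contains the Hodge torus (helper606)
-/

set_option autoImplicit false
set_option linter.unusedSectionVars false

namespace Pool.Agent.Run7.h606.MT

open Matrix Filter Topology MvPolynomial
open Run7.h457.MT

noncomputable section

variable {κ : Type} [Fintype κ] [DecidableEq κ]

/-- Derivative of a polynomial along a curve with `M' = M y`. -/
theorem hasDerivAt_ev {M : ℂ → Matrix κ κ ℂ} {y : Matrix κ κ ℂ} {t : ℂ}
    (hM : ∀ i j, HasDerivAt (fun s => M s i j) ((M t * y) i j) t) (f : Po κ ℂ) :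
    HasDerivAt (fun s => ev (M s) f) (ev (M t) (dx y f)) t := by
  induction f using MvPolynomial.induction_on with
  | C c =>
    simp only [ev_C, dx_C, map_zero]
    exact hasDerivAt_const t c
  | add p q hp hq =>
    simp only [map_add]
    exact hp.add hq
  | mul_X p q hp =>
    have h1 := hp.mul (hM q.1 q.2)
    rw [Derivation.leibniz, map_add, smul_eq_mul, smul_eq_mul, map_mul, map_mul, ev_dx_X, ev_X]
    have h2 : (fun s => ev (M s) (p * X q)) = fun s => ev (M s) p * M s q.1 q.2 := by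
      funext s
      rw [map_mul, ev_X]
    rw [h2]
    refine h1.congr_deriv ?_
    rw [add_comm, mul_comm (M t q.1 q.2)]

theorem ev_curve_zero {A : Submodule ℚ (Matrix κ κ ℚ)} {M : ℂ → Matrix κ κ ℂ} {y : Matrix κ κ ℂ}
    (hM : ∀ t i j, HasDerivAt (fun s => M s i j) ((M t * y) i j) t) (h0 : M 0 = 1)
    (hy : y ∈ ratSpan ℂ (A : Set (Matrix κ κ ℚ))) {f : Po κ ℂ} (hf : f ∈ II ℂ A) (t : ℂ) :
    ev (M t) f = 0 := by
  have hd : ∀ f : Po κ ℂ, Differentiable ℂ fun s => ev (M s) f := fun f s =>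
    (hasDerivAt_ev (hM s) f).differentiableAt
  have hit : ∀ (n : ℕ) (f : Po κ ℂ), iteratedDeriv n (fun s => ev (M s) f) =
      fun s => ev (M s) ((dx y)^[n] f) := by
    intro n
    induction n with
    | zero => intro f; rfl
    | succ n ih =>
      intro f
      rw [iteratedDeriv_succ', show deriv (fun s => ev (M s) f) = fun s => ev (M s) (dx y f) from
        funext fun s => (hasDerivAt_ev (hM s) f).deriv, ih]
      rfl
  have hII : ∀ n : ℕ, (dx y)^[n] f ∈ II ℂ A := by
    intro n
    induction n with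
    | zero => exact hf
    | succ n ih =>
      rw [Function.iterate_succ_apply']
      exact II_dx_span hy ih
  have h1 := Complex.taylorSeries_eq_of_entire (hd f) 0 t
  rw [← h1]
  have h2 : ∀ n : ℕ, iteratedDeriv n (fun s => ev (M s) f) 0 = 0 := by
    intro n
    rw [hit n f]
    show ev (M 0) ((dx y)^[n] f) = 0
    rw [h0]
    exact II_one (hII n)
  simp [h2]

variable {C : Type} [Fintype C] [DecidableEq C]

theorem torus_mem {A : Submodule ℚ (Matrix κ κ ℚ)} {a b : C → ℤ} {e : C → Matrix κ κ ℂ}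
    (he : ∀ c c', e c * e c' = if c = c' then e c else 0) (he1 : ∑ c, e c = 1)
    (hD : ∑ c, (a c : ℂ) • e c ∈ ratSpan ℂ (A : Set (Matrix κ κ ℚ)))
    (hD' : ∑ c, (b c : ℂ) • e c ∈ ratSpan ℂ (A : Set (Matrix κ κ ℚ))) {z : ℂ} (hz : z ≠ 0) :
    ∑ c, (z ^ (-a c) * starRingEnd ℂ z ^ (-b c)) • e c ∈ HH A := by
  set α : ℂ := Complex.log z with hα
  have hαz : Complex.exp α = z := Complex.exp_log hz
  set β : ℂ := starRingEnd ℂ α with hβ
  have hβz : Complex.exp β = starRingEnd ℂ z := by rw [hβ, Complex.exp_conj, hαz]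
  let lam : C → ℂ := fun c => -((a c : ℂ) * α + (b c : ℂ) * β)
  let M : ℂ → Matrix κ κ ℂ := fun t => ∑ c, Complex.exp (t * lam c) • e c
  let y : Matrix κ κ ℂ := ∑ c, lam c • e c
  have hMz : M 1 = ∑ c, (z ^ (-a c) * starRingEnd ℂ z ^ (-b c)) • e c := by
    refine Finset.sum_congr rfl fun c _ => ?_
    congr 1
    show Complex.exp (1 * -((a c : ℂ) * α + (b c : ℂ) * β)) = _
    have h1 : (1 : ℂ) * -((a c : ℂ) * α + (b c : ℂ) * β) =
        ((-a c : ℤ) : ℂ) * α + ((-b c : ℤ) : ℂ) * β := by push_cast; ring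
    rw [h1, Complex.exp_add, Complex.exp_int_mul, Complex.exp_int_mul, hαz, hβz]
  have hmul : ∀ u v : C → ℂ, (∑ c, u c • e c) * (∑ c, v c • e c) = ∑ c, (u c * v c) • e c := by
    intro u v
    rw [Finset.sum_mul]
    refine Finset.sum_congr rfl fun c _ => ?_
    rw [Finset.mul_sum, Finset.sum_eq_single c]
    · rw [Matrix.smul_mul, Matrix.mul_smul, he, if_pos rfl, smul_smul]
    · intro c' _ hc'
      rw [Matrix.smul_mul, Matrix.mul_smul, he, if_neg (Ne.symm hc'), smul_zero, smul_zero]
    · intro h; exact absurd (Finset.mem_univ c) h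
  have hy : y ∈ ratSpan ℂ (A : Set (Matrix κ κ ℚ)) := by
    have h1 : y = (-α) • (∑ c, (a c : ℂ) • e c) + (-β) • (∑ c, (b c : ℂ) • e c) := by
      rw [Finset.smul_sum, Finset.smul_sum, ← Finset.sum_add_distrib]
      refine Finset.sum_congr rfl fun c _ => ?_
      rw [smul_smul, smul_smul, ← add_smul]
      congr 1
      show -((a c : ℂ) * α + (b c : ℂ) * β) = _
      ring
    rw [h1]
    exact Submodule.add_mem _ (Submodule.smul_mem _ _ hD) (Submodule.smul_mem _ _ hD')
  have hM : ∀ t i j, HasDerivAt (fun s => M s i j) ((M t * y) i j) t := by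
    intro t i j
    have h1 : (M t * y) i j = ∑ c, (Complex.exp (t * lam c) * lam c) * e c i j := by
      rw [show M t * y = ∑ c, (Complex.exp (t * lam c) * lam c) • e c from hmul _ _]
      rw [Matrix.sum_apply]
      rfl
    have h2 : (fun s => M s i j) = fun s => ∑ c, Complex.exp (s * lam c) * e c i j := by
      funext s
      show (∑ c, Complex.exp (s * lam c) • e c) i j = _
      rw [Matrix.sum_apply]
      rfl
    rw [h1, h2]
    refine HasDerivAt.fun_sum fun c _ => ?_
    refine HasDerivAt.mul_const ?_ _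
    have h3 : HasDerivAt (fun s : ℂ => s * lam c) (lam c) t := by
      simpa using (hasDerivAt_id t).mul_const (lam c)
    exact h3.cexp
  have h0 : M 0 = 1 := by
    show ∑ c, Complex.exp (0 * lam c) • e c = 1
    simp only [zero_mul, Complex.exp_zero, one_smul]
    exact he1
  refine ⟨?_, fun f hf => ?_⟩
  · have h1 : (∑ c, (z ^ (-a c) * starRingEnd ℂ z ^ (-b c)) • e c) *
        (∑ c, (z ^ (a c) * starRingEnd ℂ z ^ (b c)) • e c) = 1 := by
      rw [hmul]
      rw [← he1]
      refine Finset.sum_congr rfl fun c _ => ?_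
      have hz' : starRingEnd ℂ z ≠ 0 := by rwa [Ne, map_eq_zero]
      have h2 : z ^ (-a c) * starRingEnd ℂ z ^ (-b c) * (z ^ (a c) * starRingEnd ℂ z ^ (b c)) = 1 := by
        rw [mul_mul_mul_comm, ← zpow_add₀ hz, ← zpow_add₀ hz', neg_add_cancel, neg_add_cancel,
          zpow_zero, zpow_zero, mul_one]
      rw [h2, one_smul]
    intro h
    have h3 := congrArg Matrix.det h1
    rw [Matrix.det_mul, h, zero_mul, Matrix.det_one] at h3
    exact zero_ne_one h3
  · rw [value_eq, ← hMz]
    exact ev_curve_zero hM h0 hy (bc_mem_II hf) 1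

end

end Pool.Agent.Run7.h606.MT
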