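import Pool.Agent.Run7.h457.MT.Defs

/-!
# Project MT457, left invariant derivations of the ring of polynomials in the entries of a matrix
(helper606)
-/

set_option autoImplicit false
set_option linter.unusedSectionVars false

namespace Pool.Agent.Run7.h606.MT

open Matrix Filter Topology MvPolynomial
open Run7.h457.MT

noncomputable section

variable {κ : Type} [Fintype κ] [DecidableEq κ]

section field

variable {F : Type} [Field F]

/-- Polynomials in the entries of a matrix. -/
abbrev Po (κ F : Type) [CommSemiring F] : Type := MvPolynomial (κ × κ) F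

/-- The value of `f` at `m`. -/
def ev (m : Matrix κ κ F) : Po κ F →ₐ[F] F := aeval (fun q : κ × κ => m q.1 q.2)

@[simp] theorem ev_X (m : Matrix κ κ F) (q : κ × κ) : ev m (X q) = m q.1 q.2 := by
  simp [ev]

@[simp] theorem ev_C (m : Matrix κ κ F) (c : F) : ev m (C c) = c := by
  simp [ev]

/-- The derivation `∂_x`. -/
def dx (x : Matrix κ κ F) : Derivation F (Po κ F) (Po κ F) :=
  mkDerivation F fun q => ∑ k, X (q.1, k) * C (x k q.2)

theorem dx_X (x : Matrix κ κ F) (q : κ × κ) :
    dx x (X q) = ∑ k, X (q.1, k) * C (x k q.2) := mkDerivation_X _ _ _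

@[simp] theorem dx_C (x : Matrix κ κ F) (c : F) : dx x (C c) = 0 := derivation_C _ _

theorem ev_dx_X (m x : Matrix κ κ F) (q : κ × κ) : ev m (dx x (X q)) = (m * x) q.1 q.2 := by
  rw [dx_X, map_sum, Matrix.mul_apply]
  simp

theorem dx_add (x y : Matrix κ κ F) : dx (x + y) = dx x + dx y := by
  refine derivation_ext fun q => ?_
  rw [Derivation.add_apply, dx_X, dx_X, dx_X, ← Finset.sum_add_distrib]
  refine Finset.sum_congr rfl fun k _ => ?_
  rw [Matrix.add_apply, map_add, mul_add]

theorem dx_smul (c : F) (x : Matrix κ κ F) : dx (c • x) = c • dx x := by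
  refine derivation_ext fun q => ?_
  rw [Derivation.smul_apply, dx_X, dx_X, Finset.smul_sum]
  refine Finset.sum_congr rfl fun k _ => ?_
  rw [Matrix.smul_apply, smul_eq_mul, C_mul, MvPolynomial.smul_eq_C_mul]
  ring

theorem dx_zero : dx (0 : Matrix κ κ F) = 0 := by
  have := dx_smul (0 : F) (0 : Matrix κ κ F)
  rwa [zero_smul, zero_smul] at this

/-- The left translation `f ↦ f (a g)`. -/
def lt (a : Matrix κ κ F) : Po κ F →ₐ[F] Po κ F :=
  aeval fun q => ∑ k, C (a q.1 k) * X (k, q.2)

theorem lt_X (a : Matrix κ κ F) (q : κ × κ) : lt a (X q) = ∑ k, C (a q.1 k) * X (k, q.2) := by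
  simp [lt]

theorem lt_C (a : Matrix κ κ F) (c : F) : lt a (C c) = C c := by
  simp [lt]

theorem ev_lt (a m : Matrix κ κ F) (f : Po κ F) : ev m (lt a f) = ev (a * m) f := by
  have h : (ev m).comp (lt a) = ev (a * m) := by
    refine algHom_ext fun q => ?_
    rw [AlgHom.comp_apply, lt_X, map_sum, ev_X, Matrix.mul_apply]
    simp
  rw [← h]; rfl

theorem lt_lt (a b : Matrix κ κ F) (f : Po κ F) : lt a (lt b f) = lt (b * a) f := by
  have h : (lt a).comp (lt b) = lt (b * a) := by
    refine algHom_ext fun q => ?_
    rw [AlgHom.comp_apply, lt_X, map_sum, lt_X]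
    simp only [map_mul, lt_C, lt_X, Matrix.mul_apply, map_sum, Finset.mul_sum, Finset.sum_mul]
    rw [Finset.sum_comm]
    refine Finset.sum_congr rfl fun k _ => Finset.sum_congr rfl fun l _ => ?_
    ring
  rw [← h]; rfl

theorem lt_one (f : Po κ F) : lt (1 : Matrix κ κ F) f = f := by
  have h : lt (1 : Matrix κ κ F) = AlgHom.id F _ := by
    refine algHom_ext fun q => ?_
    rw [lt_X, AlgHom.id_apply]
    simp [Matrix.one_apply]
  rw [h]; rfl

theorem dx_lt (x a : Matrix κ κ F) (f : Po κ F) : dx x (lt a f) = lt a (dx x f) := by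
  induction f using MvPolynomial.induction_on with
  | C c => rw [lt_C, dx_C, map_zero]
  | add p q hp hq => rw [map_add, map_add, hp, hq, map_add, map_add]
  | mul_X p q hp =>
    rw [map_mul, Derivation.leibniz, hp, Derivation.leibniz, map_add, smul_eq_mul, smul_eq_mul,
      smul_eq_mul, smul_eq_mul, map_mul, map_mul]
    congr 2
    rw [lt_X, map_sum, dx_X, map_sum]
    simp only [map_mul, lt_C, lt_X, Finset.sum_mul, Derivation.leibniz, dx_C, 
      dx_X, smul_eq_mul, Finset.mul_sum, mul_zero, add_zero]
    rw [Finset.sum_comm]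
    refine Finset.sum_congr rfl fun k _ => Finset.sum_congr rfl fun l _ => ?_
    ring

end field

section tower

variable {F F' : Type} [Field F] [Field F'] [Algebra F F']

/-- Base change. -/
def bc (F F' : Type) [Field F] [Field F'] [Algebra F F'] : Po κ F →+* Po κ F' :=
  map (algebraMap F F')

theorem bc_X (q : κ × κ) : bc F F' (X q) = X q := map_X _ _

theorem bc_C (c : F) : bc (κ := κ) F F' (C c) = C (algebraMap F F' c) := map_C _ _

theorem bc_smul (c : F) (f : Po κ F) : bc F F' (c • f) = algebraMap F F' c • bc F F' f := by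
  rw [MvPolynomial.smul_eq_C_mul, map_mul, bc_C, MvPolynomial.smul_eq_C_mul]

theorem bc_dx (x : Matrix κ κ F) (f : Po κ F) :
    bc F F' (dx x f) = dx (x.map (algebraMap F F')) (bc F F' f) := by
  induction f using MvPolynomial.induction_on with
  | C c => rw [bc_C, dx_C, dx_C, map_zero]
  | add p q hp hq => rw [map_add, map_add, hp, hq, map_add, map_add]
  | mul_X p q hp =>
    rw [Derivation.leibniz, map_add, smul_eq_mul, smul_eq_mul, map_mul, map_mul, map_mul, hp,
      Derivation.leibniz, smul_eq_mul, smul_eq_mul, bc_X]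
    congr 2
    rw [dx_X, dx_X, map_sum]
    refine Finset.sum_congr rfl fun k _ => ?_
    rw [map_mul, bc_X, bc_C, Matrix.map_apply]

theorem ev_bc (m : Matrix κ κ F) (f : Po κ F) :
    ev (m.map (algebraMap F F')) (bc F F' f) = algebraMap F F' (ev m f) := by
  induction f using MvPolynomial.induction_on with
  | C c => rw [bc_C, ev_C, ev_C]
  | add p q hp hq => rw [map_add, map_add, hp, hq, map_add, map_add]
  | mul_X p q hp => rw [map_mul, map_mul, hp, bc_X, ev_X, map_mul, map_mul, ev_X, Matrix.map_apply]

theorem value_eq [Algebra ℚ F] (m : Matrix κ κ F) (f : MvPolynomial (κ × κ) ℚ) :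
    value m f = ev m (bc ℚ F f) := by
  unfold value ev bc
  rw [aeval_map_algebraMap]

/-- Every polynomial over `F'` is a combination of polynomials over `F` with linearly independent
coefficients. -/
theorem exists_bc (f : Po κ F') : ∃ (n : ℕ) (b : Fin n → F') (p : Fin n → Po κ F),
    LinearIndependent F b ∧ f = ∑ i, C (b i) * bc F F' (p i) := by
  classical
  let B := Module.Basis.ofVectorSpace F F'
  let s : Finset (Module.Basis.ofVectorSpaceIndex F F') :=
    f.support.biUnion fun m => (B.repr (f.coeff m)).support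
  let e : Fin s.card ≃ s := s.equivFin.symm
  let p : (Module.Basis.ofVectorSpaceIndex F F') → Po κ F := fun i =>
    ∑ m ∈ f.support, monomial m (B.repr (f.coeff m) i)
  refine ⟨s.card, fun i => B (e i), fun i => p (e i), ?_, ?_⟩
  · exact B.linearIndependent.comp _ (Subtype.val_injective.comp e.injective)
  · have h1 : ∑ i, C (B (e i)) * bc F F' (p (e i)) = ∑ i ∈ s, C (B i) * bc F F' (p i) := by
      rw [e.sum_comp (fun i : s => C (B i) * bc F F' (p i))]
      exact Finset.sum_coe_sort s (fun i => C (B i) * bc F F' (p i))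
    rw [h1]
    ext m
    rw [MvPolynomial.coeff_sum]
    have h2 : ∀ i, coeff m (C (B i) * bc F F' (p i)) = B i * algebraMap F F' (B.repr (f.coeff m) i) := by
      intro i
      rw [MvPolynomial.coeff_C_mul, bc, MvPolynomial.coeff_map]
      congr 2
      rw [MvPolynomial.coeff_sum]
      simp only [MvPolynomial.coeff_monomial]
      rw [Finset.sum_ite_eq']
      split_ifs with h
      · rfl
      · rw [MvPolynomial.notMem_support_iff.1 h, map_zero]; rfl
    simp only [h2]
    by_cases hm : m ∈ f.support
    · have h3 := B.linearCombination_repr (f.coeff m)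
      rw [Finsupp.linearCombination_apply, Finsupp.sum] at h3
      conv_lhs => rw [← h3]
      rw [Finset.sum_subset (s₂ := s)]
      · refine Finset.sum_congr rfl fun i _ => ?_
        rw [Algebra.smul_def, mul_comm]
      · intro i hi
        exact Finset.mem_biUnion.2 ⟨m, hm, hi⟩
      · intro i _ hi
        rw [Finsupp.notMem_support_iff.1 hi, zero_smul]
    · rw [MvPolynomial.notMem_support_iff.1 hm, map_zero]
      simp

end tower

end

end Pool.Agent.Run7.h606.MT
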