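import Pool.Agent.Run7.h606.MT.Dx

/-!
# Project MT457, the algebraic group defined by a set of rational matrices (helper606)

`II F A` is the set of the polynomials over `F` all of whose derivatives along sequences of elements
of `A` vanish at `1`; `HH A` is the set of the invertible complex matrices at which the elements of
`II ℚ A` vanish.  It is a group.
-/

set_option autoImplicit false
set_option linter.unusedSectionVars false

namespace Pool.Agent.Run7.h606.MT

open Matrix Filter Topology MvPolynomial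
open Run7.h457.MT

noncomputable section

variable {κ : Type} [Fintype κ] [DecidableEq κ]

section field

variable {F : Type} [Field F] [Algebra ℚ F]

/-- Iterated derivatives along a list of rational matrices. -/
def dl (F : Type) [Field F] [Algebra ℚ F] : List (Matrix κ κ ℚ) → (Po κ F →ₗ[F] Po κ F)
  | [] => LinearMap.id
  | x :: l => (dl F l).comp (dx (x.map (algebraMap ℚ F)) : Po κ F →ₗ[F] Po κ F)

theorem dl_cons (x : Matrix κ κ ℚ) (l : List (Matrix κ κ ℚ)) (f : Po κ F) :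
    dl F (x :: l) f = dl F l (dx (x.map (algebraMap ℚ F)) f) := rfl

theorem dl_nil (f : Po κ F) : dl F [] f = f := rfl

/-- The polynomials whose derivatives along `A` vanish at `1`. -/
def II (F : Type) [Field F] [Algebra ℚ F] (A : Submodule ℚ (Matrix κ κ ℚ)) :
    Submodule F (Po κ F) where
  carrier := {f | ∀ l : List (Matrix κ κ ℚ), (∀ x ∈ l, x ∈ A) → ev 1 (dl F l f) = 0}
  add_mem' {f g} hf hg l hl := by
    rw [map_add, map_add, hf l hl, hg l hl, add_zero]
  zero_mem' l hl := by rw [map_zero, map_zero]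
  smul_mem' c f hf l hl := by
    rw [map_smul, map_smul, hf l hl, smul_zero]

variable {A : Submodule ℚ (Matrix κ κ ℚ)}

theorem mem_II {f : Po κ F} :
    f ∈ II F A ↔ ∀ l : List (Matrix κ κ ℚ), (∀ x ∈ l, x ∈ A) → ev 1 (dl F l f) = 0 := Iff.rfl

theorem II_one {f : Po κ F} (hf : f ∈ II F A) : ev 1 f = 0 := hf [] (by simp)

theorem II_dx {f : Po κ F} (hf : f ∈ II F A) {x : Matrix κ κ ℚ} (hx : x ∈ A) :
    dx (x.map (algebraMap ℚ F)) f ∈ II F A := fun l hl =>
  hf (x :: l) (by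
    intro y hy
    rcases List.mem_cons.1 hy with rfl | hy
    · exact hx
    · exact hl y hy)

theorem II_dl {f : Po κ F} (hf : f ∈ II F A) {l : List (Matrix κ κ ℚ)} (hl : ∀ x ∈ l, x ∈ A) :
    dl F l f ∈ II F A := by
  induction l generalizing f with
  | nil => exact hf
  | cons x l ih =>
    rw [dl_cons]
    exact ih (II_dx hf (hl x (by simp))) fun y hy => hl y (by simp [hy])

theorem II_mul (p : Po κ F) {f : Po κ F} (hf : f ∈ II F A) : p * f ∈ II F A := by
  have key : ∀ l : List (Matrix κ κ ℚ), (∀ x ∈ l, x ∈ A) → ∀ p f : Po κ F, f ∈ II F A →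
      ev 1 (dl F l (p * f)) = 0 := by
    intro l
    induction l with
    | nil =>
      intro _ p f hf
      rw [dl_nil, map_mul, II_one hf, mul_zero]
    | cons x l ih =>
      intro hl p f hf
      have hl' : ∀ y ∈ l, y ∈ A := fun y hy => hl y (by simp [hy])
      rw [dl_cons, Derivation.leibniz, map_add, map_add, smul_eq_mul, smul_eq_mul,
        ih hl' p _ (II_dx hf (hl x (by simp))), mul_comm f, ih hl' _ f hf, add_zero]
  exact fun l hl => key l hl p f hf

/-- `II F A` as an ideal. -/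
def Ii (F : Type) [Field F] [Algebra ℚ F] (A : Submodule ℚ (Matrix κ κ ℚ)) : Ideal (Po κ F) where
  carrier := II F A
  add_mem' hf hg := (II F A).add_mem hf hg
  zero_mem' := (II F A).zero_mem
  smul_mem' p f hf := II_mul p hf

theorem mem_Ii {f : Po κ F} : f ∈ Ii F A ↔ f ∈ II F A := Iff.rfl

theorem II_dx_span {x : Matrix κ κ F} (hx : x ∈ ratSpan F (A : Set (Matrix κ κ ℚ))) {f : Po κ F}
    (hf : f ∈ II F A) : dx x f ∈ II F A := by
  unfold ratSpan at hx
  induction hx using Submodule.span_induction with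
  | mem x h =>
    obtain ⟨y, hy, rfl⟩ := h
    exact II_dx hf hy
  | zero => rw [dx_zero]; exact (II F A).zero_mem
  | add x y _ _ hx hy =>
    rw [dx_add]
    exact (II F A).add_mem hx hy
  | smul c x _ hx =>
    rw [dx_smul]
    exact (II F A).smul_mem c hx

theorem dl_lt (a : Matrix κ κ F) (l : List (Matrix κ κ ℚ)) (f : Po κ F) :
    dl F l (lt a f) = lt a (dl F l f) := by
  induction l generalizing f with
  | nil => rfl
  | cons x l ih => rw [dl_cons, dl_cons, dx_lt, ih]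

end field

section tower

variable {F F' : Type} [Field F] [Field F'] [Algebra F F'] [Algebra ℚ F] [Algebra ℚ F']
  [IsScalarTower ℚ F F'] {A : Submodule ℚ (Matrix κ κ ℚ)}

theorem map_map_rat (x : Matrix κ κ ℚ) :
    (x.map (algebraMap ℚ F)).map (algebraMap F F') = x.map (algebraMap ℚ F') := by
  ext i j
  rw [Matrix.map_apply, Matrix.map_apply, Matrix.map_apply]
  exact (IsScalarTower.algebraMap_apply ℚ F F' (x i j)).symm

theorem bc_dl (l : List (Matrix κ κ ℚ)) (f : Po κ F) :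
    bc F F' (dl F l f) = dl F' l (bc F F' f) := by
  induction l generalizing f with
  | nil => rfl
  | cons x l ih =>
    rw [dl_cons, dl_cons, ih, bc_dx, map_map_rat]

theorem bc_mem_II {f : Po κ F} (hf : f ∈ II F A) : bc F F' f ∈ II F' A := by
  intro l hl
  have h1 := ev_bc (F' := F') (1 : Matrix κ κ F) (dl F l f)
  rw [bc_dl, hf l hl, map_zero, Matrix.map_one _ (map_zero _) (map_one _)] at h1
  exact h1

/-- The elements of `II F' A` are combinations of elements of `II F A`. -/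
theorem II_exists {f : Po κ F'} (hf : f ∈ II F' A) : ∃ (n : ℕ) (b : Fin n → F')
    (p : Fin n → Po κ F), (∀ i, p i ∈ II F A) ∧ f = ∑ i, C (b i) * bc F F' (p i) := by
  obtain ⟨n, b, p, hb, hfp⟩ := exists_bc (F := F) f
  refine ⟨n, b, p, fun i l hl => ?_, hfp⟩
  have h1 := hf l hl
  rw [hfp, map_sum, map_sum] at h1
  have h2 : ∀ i, ev 1 (dl F' l (C (b i) * bc F F' (p i))) = ev 1 (dl F l (p i)) • b i := by
    intro i
    have h3 := ev_bc (F' := F') (1 : Matrix κ κ F) (dl F l (p i))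
    rw [Matrix.map_one _ (map_zero _) (map_one _)] at h3
    rw [← MvPolynomial.smul_eq_C_mul, map_smul, map_smul, ← bc_dl, h3,
      Algebra.smul_def (ev 1 (dl F l (p i))) (b i), smul_eq_mul, mul_comm]
  simp only [h2] at h1
  exact Fintype.linearIndependent_iff.1 hb _ h1 i

theorem ev_II {g : Matrix κ κ F'} (hg : ∀ p ∈ II F A, ev g (bc F F' p) = 0) {f : Po κ F'}
    (hf : f ∈ II F' A) : ev g f = 0 := by
  obtain ⟨n, b, p, hp, rfl⟩ := II_exists (F := F) hf
  rw [map_sum]
  refine Finset.sum_eq_zero fun i _ => ?_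
  rw [map_mul, hg _ (hp i), mul_zero]

end tower

section group

variable {A : Submodule ℚ (Matrix κ κ ℚ)}

/-- The group. -/
def HH (A : Submodule ℚ (Matrix κ κ ℚ)) : Set (Matrix κ κ ℂ) :=
  {m | m.det ≠ 0 ∧ ∀ f ∈ II ℚ A, value m f = 0}

theorem HH_ev {m : Matrix κ κ ℂ} (hm : m ∈ HH A) {f : Po κ ℂ} (hf : f ∈ II ℂ A) : ev m f = 0 :=
  ev_II (F := ℚ) (fun p hp => by rw [← value_eq]; exact hm.2 p hp) hf

theorem lt_mem {a : Matrix κ κ ℂ} (ha : a ∈ HH A) {f : Po κ ℂ} (hf : f ∈ II ℂ A) :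
    lt a f ∈ II ℂ A := by
  intro l hl
  rw [dl_lt, ev_lt, mul_one]
  exact HH_ev ha (II_dl hf hl)

theorem inv_pow_mul {a : Matrix κ κ ℂ} (ha : a.det ≠ 0) (n : ℕ) : a⁻¹ ^ n * a ^ n = 1 := by
  have hdet : IsUnit (a ^ n).det := by
    rw [Matrix.det_pow]; exact isUnit_iff_ne_zero.2 (pow_ne_zero n ha)
  rw [Matrix.inv_pow']
  exact Matrix.nonsing_inv_mul _ hdet

/-- The ideals `{p | p (a ^ n g) ∈ II}`. -/
def Jn (A : Submodule ℚ (Matrix κ κ ℚ)) (a : Matrix κ κ ℂ) (n : ℕ) : Ideal (Po κ ℂ) :=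
  Ideal.comap (lt (a ^ n)) (Ii ℂ A)

theorem mem_Jn {a : Matrix κ κ ℂ} {n : ℕ} {p : Po κ ℂ} : p ∈ Jn A a n ↔ lt (a ^ n) p ∈ II ℂ A :=
  Iff.rfl

theorem Jn_mono {a : Matrix κ κ ℂ} (ha : a ∈ HH A) : Monotone (Jn A a) := by
  refine monotone_nat_of_le_succ fun n p hp => ?_
  rw [mem_Jn] at hp ⊢
  rw [pow_succ, ← lt_lt]
  exact lt_mem ha hp

theorem lt_inv_mem {a : Matrix κ κ ℂ} (ha : a ∈ HH A) {f : Po κ ℂ} (hf : f ∈ II ℂ A) :
    lt a⁻¹ f ∈ II ℂ A := by
  obtain ⟨n, hn⟩ := monotone_stabilizes_iff_noetherian.2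
    (inferInstance : IsNoetherian (Po κ ℂ) (Po κ ℂ)) ⟨Jn A a, Jn_mono ha⟩
  have h2 : Jn A a n = Jn A a (n + 1) := hn (n + 1) (Nat.le_succ n)
  have h3 : lt (a⁻¹ ^ (n + 1)) f ∈ Jn A a (n + 1) := by
    rw [mem_Jn, lt_lt, inv_pow_mul ha.1, lt_one]
    exact hf
  rw [← h2, mem_Jn, lt_lt, pow_succ', mul_assoc, inv_pow_mul ha.1, mul_one] at h3
  exact h3

theorem isQGroup_HH (A : Submodule ℚ (Matrix κ κ ℚ)) : IsQGroup (HH A) := by
  refine ⟨⟨II ℚ A, fun g => Iff.rfl⟩, ⟨by simp, fun f hf => ?_⟩, fun a ha b hb => ⟨?_, fun f hf => ?_⟩,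
    fun a ha => ⟨?_, fun f hf => ?_⟩⟩
  · rw [value_eq]
    exact II_one (bc_mem_II hf)
  · rw [Matrix.det_mul]; exact mul_ne_zero ha.1 hb.1
  · rw [value_eq, ← ev_lt]
    exact HH_ev hb (lt_mem ha (bc_mem_II hf))
  · rw [Matrix.det_nonsing_inv, Ring.inverse_eq_inv']
    exact inv_ne_zero ha.1
  · rw [value_eq]
    have h1 := II_one (lt_inv_mem ha (bc_mem_II (F' := ℂ) hf))
    rwa [ev_lt, mul_one] at h1

end group

end

end Pool.Agent.Run7.h606.MT
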